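import Pool.Agent.Lib.MP_9e6b46_al.Main

/-! If `G_q` is free, the incidence graph of `A`-orbits and `B`-orbits on vectors has at most as
many edges as vertices. Counting integer vectors shows that `r / s` is non-free for large `s`. -/

set_option autoImplicit false

namespace Pool.Agent.Lib.MP_9e6b46_al

open Matrix

theorem cof_section {F H : Type} [Group F] [Group H] (φ : F →* H) (hφ : Function.Injective φ) :
    ∃ w : H → F, ∀ u g, w (φ u * g) = u * w g := by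
  have h : ∀ g : H, ∃ u, φ u = g * (QuotientGroup.mk (s := φ.range) g⁻¹).out := by
    intro g
    obtain ⟨⟨c, u, hu⟩, hc⟩ := QuotientGroup.mk_out_eq_mul φ.range g⁻¹
    exact ⟨u, by rw [hc, mul_inv_cancel_left, hu]⟩
  choose w hw using h
  refine ⟨w, fun u g => hφ ?_⟩
  have e : QuotientGroup.mk (s := φ.range) (φ u * g)⁻¹ = QuotientGroup.mk g⁻¹ :=
    QuotientGroup.eq.2 ⟨u, by group⟩
  rw [hw, map_mul, hw, e, mul_assoc]

theorem cof_entry_A (n : ℤ) (M : SpecialLinearGroup (Fin 2) ℝ) :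
    (matA ^ n * M) 0 0 = M 0 0 + n * M 1 0 ∧ (matA ^ n * M) 1 0 = M 1 0 := by
  simp [matA_zpow, Matrix.mul_apply, Fin.sum_univ_two, -SpecialLinearGroup.coe_zpow]

theorem cof_entry_B (q : ℝ) (n : ℤ) (M : SpecialLinearGroup (Fin 2) ℝ) :
    (matB q ^ n * M) 0 0 = M 0 0 ∧ (matB q ^ n * M) 1 0 = M 1 0 + n * q * M 0 0 := by
  simp [matB_zpow, Matrix.mul_apply, Fin.sum_univ_two, add_comm, -SpecialLinearGroup.coe_zpow]

theorem cof_pingpong {q : ℝ} (h : ¬ NonFree q) : ∃ P : SpecialLinearGroup (Fin 2) ℝ → Prop,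
    (∀ g (n : ℤ), P g → P (matA ^ n * g) → n = 0) ∧
    (∀ g (n : ℤ), ¬ P g → ¬ P (matB q ^ n * g) → n = 0) := by
  obtain ⟨w, hw⟩ := cof_section (FreeGroup.lift ![matA, matB q])
    ((injective_iff_map_eq_one _).2 fun u hu => by_contra fun h1 => h ⟨u, h1, hu⟩)
  let ψ := FreeGroup.lift ![matA, matB 9]
  have hA : ∀ g (n : ℤ), ψ (w (matA ^ n * g)) = matA ^ n * ψ (w g) := fun g n => by
    have := hw (FreeGroup.of 0 ^ n) g
    rw [map_zpow, FreeGroup.lift_apply_of] at this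
    rw [show w (matA ^ n * g) = _ from this, map_mul, map_zpow, FreeGroup.lift_apply_of]
    rfl
  have hB : ∀ g (n : ℤ), ψ (w (matB q ^ n * g)) = matB 9 ^ n * ψ (w g) := fun g n => by
    have := hw (FreeGroup.of 1 ^ n) g
    rw [map_zpow, FreeGroup.lift_apply_of] at this
    rw [show w (matB q ^ n * g) = _ from this, map_mul, map_zpow, FreeGroup.lift_apply_of]
    rfl
  have one_le : ∀ n : ℤ, n ≠ 0 → (1 : ℝ) ≤ |(n : ℝ)| := fun n hn => by
    exact_mod_cast Int.one_le_abs hn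
  refine ⟨fun g => 3 * |ψ (w g) 0 0| ≤ |ψ (w g) 1 0|, fun g n h1 h2 => ?_, fun g n h1 h2 => ?_⟩
  · by_contra hn
    simp only [hA, (cof_entry_A n _).1, (cof_entry_A n _).2] at h2
    beta_reduce at h1
    have hd := (ψ (w g)).det_coe
    rw [det_fin_two] at hd
    generalize ψ (w g) = M at h1 h2 hd
    have h3 : |(n : ℝ) * M 1 0| ≤ |M 0 0 + n * M 1 0| + |M 0 0| := by
      simpa using abs_sub (M 0 0 + n * M 1 0) (M 0 0)
    rw [abs_mul] at h3
    have h4 := mul_le_mul_of_nonneg_right (one_le n hn) (abs_nonneg (M 1 0))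
    have h5 : M 1 0 = 0 := abs_nonpos_iff.1 (by linarith)
    have h6 : M 0 0 = 0 := abs_nonpos_iff.1 (by rw [h5, abs_zero] at h1; linarith)
    simp [h5, h6] at hd
  · by_contra hn
    simp only [hB, (cof_entry_B 9 n _).1, (cof_entry_B 9 n _).2] at h2
    beta_reduce at h1
    generalize ψ (w g) = M at h1 h2
    have h3 : |(n : ℝ) * 9 * M 0 0| ≤ |M 1 0 + n * 9 * M 0 0| + |M 1 0| := by
      simpa using abs_sub (M 1 0 + n * 9 * M 0 0) (M 1 0)
    rw [abs_mul, abs_mul, abs_of_pos (show (0 : ℝ) < 9 by norm_num)] at h3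
    have h4 := mul_le_mul_of_nonneg_right (one_le n hn) (abs_nonneg (M 0 0))
    have h5 := abs_nonneg (M 0 0)
    linarith [not_le.1 h1, not_le.1 h2]

/-- A matrix with first column `(x, y)`. -/
noncomputable def cofM (x y c : ℝ) : SpecialLinearGroup (Fin 2) ℝ :=
  if h : y = 0 then 1 else ⟨!![x, c * x - y⁻¹; y, c * y], by rw [det_fin_two_of]; field_simp; ring⟩

theorem cofM_A {x y : ℝ} (c : ℝ) (n : ℤ) (hy : y ≠ 0) :
    matA ^ n * cofM x y c = cofM (x + n * y) y c := by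
  refine Subtype.ext ((Matrix.SpecialLinearGroup.coe_mul _ _).trans ?_)
  rw [matA_zpow, cofM, cofM, dif_neg hy, dif_neg hy]
  ext i j
  fin_cases i <;> fin_cases j <;> simp [Matrix.mul_apply, Fin.sum_univ_two]
  ring

theorem cofM_B {x y y' c c' q : ℝ} (n : ℤ) (hx : x ≠ 0) (hy : y ≠ 0) (hy' : y' ≠ 0)
    (h1 : y' = y + n * q * x) (h2 : c' - (x * y')⁻¹ = c - (x * y)⁻¹) :
    matB q ^ n * cofM x y c = cofM x y' c' := by
  have h3 : (n : ℝ) * q = (y' - y) / x := by rw [h1]; field_simp; ring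
  refine Subtype.ext ((Matrix.SpecialLinearGroup.coe_mul _ _).trans ?_)
  rw [matB_zpow, cofM, cofM, dif_neg hy, dif_neg hy', h3, eq_add_of_sub_eq h2]
  ext i j
  fin_cases i <;> fin_cases j <;> simp [Matrix.mul_apply, Fin.sum_univ_two] <;> field_simp <;> ring

theorem cof_count {q : ℝ} (h : ¬ NonFree q) {ι α β : Type} (E : Finset ι) (IA : Finset α)
    (IB : Finset β) (X Y : ι → ℤ) (cA : ι → α) (cB : ι → β)
    (h0 : ∀ i ∈ E, X i ≠ 0 ∧ Y i ≠ 0 ∧ cA i ∈ IA ∧ cB i ∈ IB)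
    (hinj : ∀ i ∈ E, ∀ j ∈ E, X i = X j → Y i = Y j → i = j)
    (hA : ∀ i ∈ E, ∀ j ∈ E, cA i = cA j → Y j = Y i ∧ ∃ n : ℤ, X j = X i + n * Y i)
    (hB : ∀ i ∈ E, ∀ j ∈ E, cB i = cB j → X j = X i ∧ ∃ n : ℤ, (Y j : ℝ) = Y i + n * q * X i) :
    E.card ≤ IA.card + IB.card := by
  classical
  obtain ⟨P, hPA, hPB⟩ := cof_pingpong h
  obtain ⟨D, hD, k, hk⟩ : ∃ D : ℕ, 0 < D ∧ ∃ k : ι → ℤ, ∀ i ∈ E, (D : ℤ) = X i * Y i * k i := by
    refine ⟨(∏ i ∈ E, X i * Y i).natAbs, Int.natAbs_pos.2 (Finset.prod_ne_zero_iff.2 fun i hi =>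
      mul_ne_zero (h0 i hi).1 (h0 i hi).2.1), 
      fun i => ((∏ i ∈ E, X i * Y i).natAbs : ℤ) / (X i * Y i), fun i hi => ?_⟩
    exact (Int.mul_ediv_cancel' (Int.dvd_natAbs.2 (Finset.dvd_prod_of_mem _ hi))).symm
  have hkb : ∀ i ∈ E, |k i| ≤ D := fun i hi =>
    Int.le_of_dvd (by exact_mod_cast hD) ((abs_dvd _ _).2 ⟨X i * Y i, by rw [hk i hi]; ring⟩)
  have hkr : ∀ i ∈ E, ((X i : ℝ) * Y i)⁻¹ = k i / D := fun i hi => by
    have h1 : (D : ℝ) = X i * Y i * k i := by exact_mod_cast hk i hi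
    have h2 : (D : ℝ) ≠ 0 := by positivity
    have h3 : (X i : ℝ) ≠ 0 := by exact_mod_cast (h0 i hi).1
    have h4 : (Y i : ℝ) ≠ 0 := by exact_mod_cast (h0 i hi).2.1
    field_simp
    exact h1
  have key : ∀ N : ℕ, E.card * N ≤ IA.card * N + IB.card * (N + 2 * D) := by
    intro N
    let O : ι × ℕ → Prop := fun a => P (cofM (X a.1) (Y a.1) (a.2 / D))
    have e1 := Finset.card_filter_add_card_filter_not (s := E ×ˢ Finset.range N) O
    have e2 : ((E ×ˢ Finset.range N).filter O).card ≤ (IA ×ˢ Finset.range N).card := by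
      refine Finset.card_le_card_of_injOn (fun a => (cA a.1, a.2)) (fun a ha => ?_)
        fun a ha b hb hab => ?_
      · obtain ⟨h1, h2⟩ := Finset.mem_product.1 (Finset.mem_filter.1 ha).1
        exact Finset.mem_coe.2 (Finset.mem_product.2 ⟨(h0 _ h1).2.2.1, h2⟩)
      · obtain ⟨ha1, ha2⟩ := Finset.mem_filter.1 ha
        obtain ⟨hb1, hb2⟩ := Finset.mem_filter.1 hb
        have ha3 := (Finset.mem_product.1 ha1).1
        have hb3 := (Finset.mem_product.1 hb1).1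
        obtain ⟨h1, h2⟩ := Prod.mk.inj hab
        obtain ⟨h3, n, h4⟩ := hA _ ha3 _ hb3 h1
        have h5 : n = 0 := hPA _ n ha2 (by
          rw [cofM_A _ _ (by exact_mod_cast (h0 _ ha3).2.1)]
          simpa only [O, h3, h4, ← h2, Int.cast_add, Int.cast_mul] using hb2)
        exact Prod.ext (hinj _ ha3 _ hb3 (by simp [h4, h5]) h3.symm) h2
    have e3 : ((E ×ˢ Finset.range N).filter fun a => ¬ O a).card
        ≤ (IB ×ˢ Finset.Ico (-(D : ℤ)) (N + D)).card := by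
      refine Finset.card_le_card_of_injOn (fun a => (cB a.1, (a.2 : ℤ) - k a.1)) (fun a ha => ?_)
        fun a ha b hb hab => ?_
      · obtain ⟨h1, h2⟩ := Finset.mem_product.1 (Finset.mem_filter.1 ha).1
        have h3 := abs_le.1 (hkb _ h1)
        have h4 := Finset.mem_range.1 h2
        refine Finset.mem_coe.2 (Finset.mem_product.2 ⟨(h0 _ h1).2.2.2, Finset.mem_Ico.2 ?_⟩)
        constructor <;> simp only <;> omega
      · obtain ⟨ha1, ha2⟩ := Finset.mem_filter.1 ha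
        obtain ⟨hb1, hb2⟩ := Finset.mem_filter.1 hb
        have ha3 := (Finset.mem_product.1 ha1).1
        have hb3 := (Finset.mem_product.1 hb1).1
        obtain ⟨h1, h2⟩ := Prod.mk.inj hab
        obtain ⟨h3, n, h4⟩ := hB _ ha3 _ hb3 h1
        have h6 : ((a.2 : ℝ) - k a.1) = b.2 - k b.1 := by exact_mod_cast h2
        have h5 : n = 0 := hPB _ n ha2 (by
          rw [cofM_B (c' := b.2 / D) n (by exact_mod_cast (h0 _ ha3).1)
            (by exact_mod_cast (h0 _ ha3).2.1) (by exact_mod_cast (h0 _ hb3).2.1) h4]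
          · simpa only [O, h3] using hb2
          · rw [hkr _ ha3, ← h3, hkr _ hb3, ← sub_div, ← sub_div, h6])
        have h7 : a.1 = b.1 := hinj _ ha3 _ hb3 h3.symm (by
          rw [h5, Int.cast_zero, zero_mul, zero_mul, add_zero] at h4
          exact_mod_cast h4.symm)
        refine Prod.ext h7 ?_
        rw [h7] at h2
        omega
    rw [Finset.card_product, Finset.card_range] at e1 e2
    rw [Finset.card_product, Int.card_Ico, show ((N : ℤ) + D - -D).toNat = N + 2 * D by omega] at e3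
    omega
  by_contra hlt
  have h1 := key (IB.card * (2 * D) + 1)
  have h2 := Nat.mul_le_mul_right (IB.card * (2 * D) + 1) (Nat.succ_le_of_lt (not_le.1 hlt))
  nlinarith

/-- Pairs (residue of `x` modulo `y`, `y`) used with the quotient `n`. -/
def cofT (s : ℕ) : ℕ → Finset (ℕ × ℕ)
  | 0 => Finset.Icc 1 s ×ˢ Finset.Icc s (s ^ 2)
  | n + 1 => (Finset.Icc s (s ^ 2 / (n + 1))).image fun y => (s - (n + 1) * y % s, y)

theorem cofT_mem {s n : ℕ} (hs : 0 < s) {a : ℕ × ℕ} (h : a ∈ cofT s n) : a ∈ cofT s 0 ∧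
    (n ≠ 0 → s ∣ a.1 + n * a.2 ∧ n * a.2 ≤ s ^ 2) := by
  rcases n with _ | n
  · exact ⟨h, fun h' => absurd rfl h'⟩
  · obtain ⟨y, hy, rfl⟩ := Finset.mem_image.1 h
    obtain ⟨h1, h2⟩ := Finset.mem_Icc.1 hy
    have h3 := Nat.mod_lt ((n + 1) * y) hs
    have h4 := (Nat.le_div_iff_mul_le (Nat.succ_pos n)).1 h2
    have h5 := Nat.div_add_mod ((n + 1) * y) s
    refine ⟨Finset.mem_product.2 ⟨Finset.mem_Icc.2 ⟨by omega, by omega⟩,
      Finset.mem_Icc.2 ⟨h1, h2.trans (Nat.div_le_self _ _)⟩⟩, fun _ => ⟨⟨(n + 1) * y / s + 1, ?_⟩, ?_⟩⟩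
    · rw [mul_add, mul_one]
      simp only
      omega
    · rwa [mul_comm]

theorem cofT_card (s n : ℕ) : (s : ℝ) ^ 2 * ((n + 1 : ℕ) : ℝ)⁻¹ - s ≤ (cofT s (n + 1)).card := by
  rw [cofT, Finset.card_image_of_injective _ fun y y' h => (Prod.mk.inj h).2, Nat.card_Icc]
  have h1 : s ^ 2 < (s ^ 2 / (n + 1) + 1) * (n + 1) := by
    rw [mul_comm]
    exact Nat.lt_mul_div_succ _ (Nat.succ_pos n)
  have h2 : ((s : ℝ)) ^ 2 ≤ ((s ^ 2 / (n + 1) + 1 : ℕ) : ℝ) * ((n + 1 : ℕ) : ℝ) := by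
    exact_mod_cast h1.le
  have h3 : ((s ^ 2 / (n + 1) + 1 : ℕ) : ℝ) ≤ ((s ^ 2 / (n + 1) + 1 - s : ℕ) : ℝ) + s := by
    exact_mod_cast le_tsub_add
  have h4 := (mul_inv_le_iff₀ (show (0 : ℝ) < ((n + 1 : ℕ) : ℝ) by positivity)).2 h2
  linarith

theorem cof_ineq {q : ℝ} (h : ¬ NonFree q) {r s : ℕ} {e : ℤ} (hq : e * q * s = r) (hr : 0 < r)
    (hs : 0 < s) : 2 * ∑ n ∈ Finset.range s, (cofT s (n + 1)).card ≤ r * ((s + 1) * (s + 2)) := by
  classical
  let x' : (Σ _ : ℕ, ℕ × ℕ) → ℕ := fun a => if a.1 = 0 then a.2.1 else (a.2.1 + a.1 * a.2.2) / s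
  have hm : ∀ i ∈ (Finset.range (s + 1)).sigma (cofT s) ×ˢ ({1, -1} : Finset ℤ),
      i.1.2 ∈ cofT s 0 ∧ i.2 ∈ ({1, -1} : Finset ℤ) ∧ (1 ≤ i.1.2.1 ∧ i.1.2.1 ≤ s) ∧ s ≤ i.1.2.2 ∧
      (i.2 = 1 ∨ i.2 = -1) ∧ (1 ≤ x' i.1 ∧ x' i.1 ≤ s + 1) ∧
      i.1.2.1 + i.1.1 * i.1.2.2 = (if i.1.1 = 0 then 1 else s) * x' i.1 := by
    intro i hi
    obtain ⟨h1, h2⟩ := Finset.mem_product.1 hi
    obtain ⟨h3, h4⟩ := cofT_mem hs (Finset.mem_sigma.1 h1).2
    obtain ⟨h5, h6⟩ := Finset.mem_product.1 h3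
    have h7 := Finset.mem_Icc.1 h5
    refine ⟨h3, h2, h7, (Finset.mem_Icc.1 h6).1, by simpa using h2, ?_⟩
    by_cases h0 : i.1.1 = 0
    · simp only [x', h0, if_true]
      omega
    · obtain ⟨⟨c, hc⟩, h8⟩ := h4 h0
      simp only [x', h0, if_false, hc, Nat.mul_div_cancel_left _ hs, and_true]
      constructor
      · rcases c with _ | c <;> omega
      · exact Nat.le_of_mul_le_mul_left (by nlinarith) hs
  have key := cof_count h ((Finset.range (s + 1)).sigma (cofT s) ×ˢ ({1, -1} : Finset ℤ))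
    (cofT s 0 ×ˢ ({1, -1} : Finset ℤ))
    ((Finset.univ : Finset Bool) ×ˢ (Finset.Icc 1 (s + 1)).sigma
      fun x => Finset.Ico (0 : ℤ) (r * x : ℕ))
    (fun i => (i.1.2.1 + i.1.1 * i.1.2.2 : ℕ)) (fun i => i.2 * i.1.2.2) (fun i => (i.1.2, i.2))
    (fun i => (decide (i.1.1 = 0), ⟨x' i.1, i.2 * i.1.2.2 % (r * x' i.1 : ℕ)⟩))
    (fun i hi => ?_) (fun i hi j hj hx hy => ?_) (fun i hi j hj hc => ?_) (fun i hi j hj hc => ?_)
  · simp only [Finset.card_product, Finset.card_sigma, Finset.sum_range_succ', Int.card_Ico,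
      sub_zero, Int.toNat_natCast, Finset.card_univ, Fintype.card_bool] at key
    have h1 : ({1, -1} : Finset ℤ).card = 2 := rfl
    have h2 : ∀ m : ℕ, 2 * ∑ x ∈ Finset.Icc 1 m, x = m * (m + 1) := fun m => by
      induction m with
      | zero => rfl
      | succ m ih => rw [Finset.sum_Icc_succ_top (by omega), mul_add, ih]; ring
    rw [h1, ← Finset.mul_sum, mul_left_comm, h2] at key
    linarith
  · obtain ⟨h1, h2, h3, h4, h5, h6, -⟩ := hm i hi
    have h7 : ((r * x' i.1 : ℕ) : ℤ) ≠ 0 := by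
      have := Nat.mul_pos hr h6.1
      omega
    refine ⟨by omega, by rcases h5 with h5 | h5 <;> rw [h5] <;> omega,
      Finset.mem_product.2 ⟨h1, h2⟩, Finset.mem_product.2 ⟨Finset.mem_univ _,
        Finset.mem_sigma.2 ⟨Finset.mem_Icc.2 h6, Finset.mem_Ico.2 ⟨Int.emod_nonneg _ h7, ?_⟩⟩⟩⟩
    exact Int.emod_lt_of_pos _ (by omega)
  · obtain ⟨-, -, h3, h4, h5, -⟩ := hm i hi
    obtain ⟨-, -, g3, g4, g5, -⟩ := hm j hj
    obtain ⟨⟨n, x, y⟩, ε⟩ := i
    obtain ⟨⟨n', x', y'⟩, ε'⟩ := j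
    simp only at h3 h4 h5 g3 g4 g5 hx hy
    obtain ⟨rfl, rfl⟩ : ε = ε' ∧ y = y' := by
      rcases h5 with rfl | rfl <;> rcases g5 with rfl | rfl <;> omega
    have hx' : x + n * y = x' + n' * y := by exact_mod_cast hx
    obtain rfl : n = n' := by
      rcases lt_trichotomy n n' with h' | h' | h'
      · have := Nat.mul_le_mul_right y (Nat.succ_le_of_lt h')
        rw [Nat.succ_mul] at this
        omega
      · exact h'
      · have := Nat.mul_le_mul_right y (Nat.succ_le_of_lt h')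
        rw [Nat.succ_mul] at this
        omega
    obtain rfl : x = x' := by omega
    rfl
  · obtain ⟨-, -, -, -, h5, -⟩ := hm i hi
    obtain ⟨h1, h2⟩ := Prod.mk.inj hc
    refine ⟨by simp only [h1, h2], ((j.1.1 : ℤ) - i.1.1) * i.2, ?_⟩
    simp only [← h1]
    rcases h5 with h5 | h5 <;> rw [h5] <;> push_cast <;> ring
  · obtain ⟨-, -, -, -, -, -, h7⟩ := hm i hi
    obtain ⟨-, -, -, -, -, -, g7⟩ := hm j hj
    obtain ⟨h1, h2⟩ := Prod.mk.inj hc
    obtain ⟨h3, h4⟩ := Sigma.mk.inj h2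
    have h5 := eq_of_heq h4
    rw [← h3] at h5
    obtain ⟨m, hm⟩ := Int.ModEq.dvd h5
    have h6 : (j.1.1 = 0) = (i.1.1 = 0) := by simpa using h1.symm
    have h8 : ((j.2 * j.1.2.2 : ℤ) : ℝ) = (i.2 * i.1.2.2 : ℤ) + m * (e * q * s) * x' i.1 := by
      rw [hq, eq_add_of_sub_eq hm]
      push_cast
      ring
    simp only [h7, g7, h6, ← h3, h8, true_and]
    by_cases h0 : i.1.1 = 0
    · exact ⟨m * e * s, by simp only [h0, if_true]; push_cast; ring⟩
    · exact ⟨m * e, by simp only [h0, if_false]; push_cast; ring⟩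

theorem cof_main {q : ℝ} {r s : ℕ} {e : ℤ} (hq : e * q * s = r) (hr : 0 < r)
    (hs : 2 ^ (r + 2) ≤ s) : NonFree q := by
  by_contra h
  have h0 : 4 * (r + 1) ≤ s := by
    have := Nat.lt_two_pow_self (n := r)
    rw [pow_add] at hs
    omega
  have h1 : (2 : ℝ) * ∑ n ∈ Finset.range s, ((cofT s (n + 1)).card : ℝ) ≤
      r * ((s + 1) * (s + 2)) := by exact_mod_cast cof_ineq h hq hr (by omega)
  have h2 := Finset.sum_le_sum fun n (_ : n ∈ Finset.range s) => cofT_card s n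
  rw [Finset.sum_sub_distrib, ← Finset.mul_sum, Finset.sum_const, Finset.card_range,
    nsmul_eq_mul] at h2
  have h3 : Real.log ((s + 1 : ℕ) : ℝ) ≤ ∑ n ∈ Finset.range s, ((n + 1 : ℕ) : ℝ)⁻¹ := by
    refine (log_add_one_le_harmonic s).trans_eq ?_
    simp [harmonic]
  have h4 : ((r + 2 : ℕ) : ℝ) * Real.log 2 ≤ Real.log ((s + 1 : ℕ) : ℝ) := by
    rw [← Real.log_pow]
    exact Real.log_le_log (by positivity) (by exact_mod_cast hs.trans (Nat.le_succ s))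
  have h5 := Real.log_two_gt_d9
  have h6 : (4 : ℝ) * (r + 1) ≤ s := by exact_mod_cast h0
  have h7 : (1 : ℝ) ≤ r := by exact_mod_cast hr
  have h8 : (r + 2 : ℝ) * 0.693 ≤ ∑ n ∈ Finset.range s, ((n + 1 : ℕ) : ℝ)⁻¹ := by
    refine le_trans ?_ (h4.trans h3)
    push_cast
    exact mul_le_mul_of_nonneg_left (by linarith) (by positivity)
  generalize (∑ n ∈ Finset.range s, ((n + 1 : ℕ) : ℝ)⁻¹) = H at h2 h8
  have h9 : (s : ℝ) ^ 2 * ((r + 2) * 0.693) ≤ s ^ 2 * H := mul_le_mul_of_nonneg_left h8 (by positivity)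
  have h10 : (r : ℝ) * (3 * s + 2) ≤ s / 4 * (3 * s + 2) :=
    mul_le_mul_of_nonneg_right (by linarith) (by positivity)
  have h11 : (s : ℝ) ^ 2 ≤ s ^ 2 * r := le_mul_of_one_le_right (by positivity) h7
  have h12 : (8 : ℝ) * s ≤ s * s := mul_le_mul_of_nonneg_right (by linarith) (by positivity)
  nlinarith

end Pool.Agent.Lib.MP_9e6b46_al
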