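import Mathlib

/-! Definitions for MP_9e6b46_al. -/

set_option autoImplicit false

namespace Pool.Agent.Lib.MP_9e6b46_al

open Matrix

/-- The matrix `A` with rows `(1, 1)` and `(0, 1)`. -/
def matA : SpecialLinearGroup (Fin 2) ℝ := ⟨!![1, 1; 0, 1], by simp [det_fin_two]⟩

/-- The matrix `B_q` with rows `(1, 0)` and `(q, 1)`. -/
def matB (q : ℝ) : SpecialLinearGroup (Fin 2) ℝ := ⟨!![1, 0; q, 1], by simp [det_fin_two]⟩

/-- `q` is non-free: some nontrivial element of the free group on two letters becomes the identity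
matrix when the letters are replaced by `A` and `B_q`. -/
def NonFree (q : ℝ) : Prop :=
  ∃ w : FreeGroup (Fin 2), w ≠ 1 ∧ FreeGroup.lift ![matA, matB q] w = 1

/-- The non-free rational numbers in the interval `(-4, 4)`, as a set of reals. -/
def RQ : Set ℝ := {q | (∃ r : ℚ, (r : ℝ) = q) ∧ -4 < q ∧ q < 4 ∧ NonFree q}

end Pool.Agent.Lib.MP_9e6b46_al
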