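import Pool.Agent.Lib.MP_9e6b46_al.Main

/-! Every real root of a five-letter continuant lies in the closure; greedy approximation. -/

set_option autoImplicit false

namespace Pool.Agent.Lib.MP_9e6b46_al

open Matrix Filter Topology

lemma hmul (M N : SpecialLinearGroup (Fin 2) ℝ) : ((M * N : SpecialLinearGroup (Fin 2) ℝ) :
    Matrix (Fin 2) (Fin 2) ℝ) = (M : Matrix (Fin 2) (Fin 2) ℝ) * N := rfl

lemma commute_iff (N : SpecialLinearGroup (Fin 2) ℝ) :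
    N * matA * N⁻¹ * matA = matA * (N * matA * N⁻¹) ↔ N 1 0 = 0 := by
  have hd : N 0 0 * N 1 1 - N 0 1 * N 1 0 = 1 := by rw [← det_fin_two]; exact N.2
  have hN : (N : Matrix (Fin 2) (Fin 2) ℝ) = !![N 0 0, N 0 1; N 1 0, N 1 1] := eta_fin_two _
  have hI : ((N⁻¹ : SpecialLinearGroup (Fin 2) ℝ) : Matrix (Fin 2) (Fin 2) ℝ) =
      !![N 1 1, -N 0 1; -N 1 0, N 0 0] := adjugate_fin_two _
  have hA : ((matA : SpecialLinearGroup (Fin 2) ℝ) : Matrix (Fin 2) (Fin 2) ℝ) = !![1, 1; 0, 1] :=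
    rfl
  refine Subtype.ext_iff.trans ?_
  repeat rw [hmul]
  rw [hI, hA]
  generalize N 0 0 = a, N 0 1 = b, N 1 0 = c, N 1 1 = d at hd hN ⊢
  rw [hN]
  simp only [Matrix.mul_fin_two]
  constructor
  · intro h
    have h1 := congrFun (congrFun h 0) 0
    simp only [of_apply, cons_val', cons_val_zero, cons_val_fin_one] at h1
    exact pow_eq_zero_iff two_ne_zero |>.1 (by linear_combination h1)
  · rintro rfl
    ext i j
    fin_cases i <;> fin_cases j <;> simp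
    ring

lemma entry (q : ℝ) (x a y b z : ℤ) :
    (matB q ^ x * matA ^ a * matB q ^ y * matA ^ b * matB q ^ z) 1 0 =
      q * (a * b * x * y * z * q ^ 2 + (a * x * (y + z) + b * z * (x + y)) * q + (x + y + z)) := by
  show ((matB q ^ x * matA ^ a * matB q ^ y * matA ^ b * matB q ^ z :
    SpecialLinearGroup (Fin 2) ℝ) : Matrix (Fin 2) (Fin 2) ℝ) 1 0 = _
  repeat rw [hmul]
  repeat rw [matA_zpow]
  repeat rw [matB_zpow]
  simp only [Matrix.mul_fin_two, of_apply, cons_val', cons_val_zero, cons_val_one,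
    cons_val_fin_one]
  ring

lemma nonFree_of_root (q : ℝ) {x a y b z : ℤ} (h0 : a * b * x * y * z ≠ 0)
    (h : a * b * x * y * z * q ^ 2 + (a * x * (y + z) + b * z * (x + y)) * q + (x + y + z) = 0) :
    NonFree q := by
  let u : FreeGroup (Fin 2) := FreeGroup.of 0
  let v : FreeGroup (Fin 2) := FreeGroup.of 1
  let n := v ^ x * u ^ a * v ^ y * u ^ b * v ^ z
  have key : ∀ q' : ℝ, FreeGroup.lift ![matA, matB q']
      (n * u * n⁻¹ * u * (u * (n * u * n⁻¹))⁻¹) = 1 ↔ q' * (a * b * x * y * z * q' ^ 2 +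
        (a * x * (y + z) + b * z * (x + y)) * q' + (x + y + z)) = 0 := by
    intro q'
    rw [map_mul, map_inv, mul_inv_eq_one, ← entry, ← commute_iff]
    simp [n, u, v]
  refine ⟨_, fun h1 => h0 ?_, (key q).2 (by rw [h, mul_zero])⟩
  have h2 := (key 1).1 (by rw [h1, map_one])
  have h3 := (key 2).1 (by rw [h1, map_one])
  have h4 := (key 3).1 (by rw [h1, map_one])
  have h5 : ((a * b * x * y * z : ℤ) : ℝ) = 0 := by
    push_cast
    linear_combination (1 / 2) * h2 - (1 / 2) * h3 + (1 / 6) * h4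
  exact_mod_cast h5

lemma root_mem_closure {x a y b z : ℤ} (hx : x ≠ 0) (ha : a ≠ 0) (hy : y ≠ 0) (hb : b ≠ 0)
    (hz : z ≠ 0) (hp : a ≠ b) {q : ℝ} (h1 : -4 < q) (h2 : q < 4)
    (h : a * b * x * y * z * q ^ 2 + (a * x * (y + z) + b * z * (x + y)) * q + (x + y + z) = 0) :
    q ∈ closure RQ := by
  have h0 : a * b * x * y * z ≠ 0 := by simp [hx, ha, hy, hb, hz]
  by_cases hd : IsSquare ((a * x * (y + z) + b * z * (x + y)) ^ 2 -
      4 * (a * b * x * y * z) * (x + y + z))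
  · obtain ⟨d, hd⟩ := hd
    have h3 := congrArg (Int.cast (R := ℝ)) hd
    have h4 : ((a * b * x * y * z : ℤ) : ℝ) ≠ 0 := by exact_mod_cast h0
    push_cast at h3 h4
    refine subset_closure ⟨?_, h1, h2, nonFree_of_root q h0 h⟩
    have h5 : (2 * (a * b * x * y * z) * q + (a * x * (y + z) + b * z * (x + y)) - d) *
        (2 * (a * b * x * y * z) * q + (a * x * (y + z) + b * z * (x + y)) + d) = 0 := by
      linear_combination (4 * (a * b * x * y * z : ℝ)) * h + h3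
    rcases mul_eq_zero.1 h5 with h6 | h6
    · refine ⟨(d - (a * x * (y + z) + b * z * (x + y))) / (2 * (a * b * x * y * z)), ?_⟩
      push_cast; rw [div_eq_iff (by positivity)]; linear_combination -h6
    · refine ⟨(-d - (a * x * (y + z) + b * z * (x + y))) / (2 * (a * b * x * y * z)), ?_⟩
      push_cast; rw [div_eq_iff (by positivity)]; linear_combination -h6
  · exact derivedSet_subset_closure _
      (derivedSet_mono _ _ S6_sub (first hx ha hy hb hz (Or.inr hp) hd h1 h2 h))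

lemma exists_root {ξ η x y β z : ℝ} (hξ : 0 < ξ) (hx : 1 < x * ξ) (hy : 1 ≤ y * ξ) (hz : 0 < z)
    (hβ : 1 / (z * ξ) < β) (h1 : y * ξ - 1 - 1 / (x * ξ - 1) - 1 / (β - 1 / (z * ξ)) ≤ 0)
    (h2 : -η ≤ y * ξ - 1 - 1 / (x * ξ - 1) - 1 / (β - 1 / (z * ξ))) :
    ∃ q ∈ Set.Icc ξ (ξ + η * ξ),
      β * x * y * z * q ^ 2 + (-x * (y + z) - β * z * (x + y)) * q + (x + y + z) = 0 := by
  have hη : 0 ≤ η := by linarith
  have hx0 : 0 < x := (mul_pos_iff_of_pos_right hξ).1 (by linarith)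
  have h3 : ∀ q, ξ ≤ q → x * ξ ≤ x * q ∧ 1 / (z * q) ≤ 1 / (z * ξ) := fun q h =>
    ⟨by gcongr, by gcongr⟩
  have hc : ContinuousOn (fun q => y * q - 1 - 1 / (x * q - 1) - 1 / (β - 1 / (z * q)))
      (Set.Icc ξ (ξ + η * ξ)) := by
    refine ContinuousOn.sub (ContinuousOn.sub (by fun_prop) (ContinuousOn.div (by fun_prop)
      (by fun_prop) fun q h => ?_)) (ContinuousOn.div (by fun_prop) (ContinuousOn.sub (by fun_prop)
        (ContinuousOn.div (by fun_prop) (by fun_prop) fun q h => ?_)) fun q h => ?_)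
    · linarith [(h3 q h.1).1]
    · have := hξ.trans_le h.1; positivity
    · linarith [(h3 q h.1).2]
  have h4 : ξ ≤ ξ + η * ξ := le_add_of_nonneg_right (by positivity)
  obtain ⟨q, hq, h⟩ := intermediate_value_Icc h4 hc (⟨h1, by
    obtain ⟨a, b⟩ := h3 _ h4
    have h5 : 1 / (x * (ξ + η * ξ) - 1) ≤ 1 / (x * ξ - 1) :=
      one_div_le_one_div_of_le (by linarith) (by linarith)
    have h6 : 1 / (β - 1 / (z * (ξ + η * ξ))) ≤ 1 / (β - 1 / (z * ξ)) :=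
      one_div_le_one_div_of_le (by linarith) (by linarith)
    show 0 ≤ y * (ξ + η * ξ) - 1 - 1 / (x * (ξ + η * ξ) - 1) - 1 / (β - 1 / (z * (ξ + η * ξ)))
    nlinarith⟩ : (0 : ℝ) ∈ Set.Icc _ _)
  refine ⟨q, hq, ?_⟩
  obtain ⟨a, b⟩ := h3 _ hq.1
  have h5 : 0 < q := hξ.trans_le hq.1
  have h6 : x * q - 1 ≠ 0 := by linarith
  have h7 : β * (z * q) - 1 ≠ 0 := by
    have := b.trans_lt hβ
    rw [div_lt_iff₀ (by positivity)] at this; linarith
  have h8 : 1 / (β - 1 / (z * q)) = z * q / (β * (z * q) - 1) := by field_simp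
  have h9 := one_div_mul_cancel h6
  have h10 := div_mul_cancel₀ (z * q) h7
  simp only [h8] at h
  exact mul_left_cancel₀ h5.ne' (by
    linear_combination (x * q - 1) * (β * (z * q) - 1) * h + (β * (z * q) - 1) * h9 +
      (x * q - 1) * h10)

lemma gap {ξ : ℝ} (h0 : 0 < ξ) (h1 : ξ ≤ 1 / 10) :
    ∃ q ∈ closure RQ, ξ ≤ q ∧ q ≤ ξ + 640 * ξ ^ 8 := by
  have step : ∀ t : ℝ, ∃ n : ℤ, ξ ≤ n * ξ - t ∧ n * ξ - t ≤ 2 * ξ := fun t => by
    have a := Int.le_ceil (t / ξ + 1)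
    have b := Int.ceil_lt_add_one (t / ξ + 1)
    have c : t / ξ * ξ = t := by field_simp
    exact ⟨⌈t / ξ + 1⌉, by nlinarith, by nlinarith⟩
  obtain ⟨y, hy, hy'⟩ := step 1
  obtain ⟨ρ, hρ⟩ : ∃ ρ, ρ = y * ξ - 1 := ⟨_, rfl⟩
  rw [← hρ] at hy hy'
  have hρ0 : 0 < ρ := h0.trans_le hy
  obtain ⟨x, hx, hx'⟩ := step (1 + 1 / ρ)
  obtain ⟨s, hs⟩ : ∃ s, s = x * ξ - (1 + 1 / ρ) := ⟨_, rfl⟩
  rw [← hs] at hx hx'
  have hs0 : 0 < s := h0.trans_le hx
  obtain ⟨σ, hσ⟩ : ∃ σ, σ = ρ ^ 2 * s / (1 + ρ * s) := ⟨_, rfl⟩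
  have hσ0 : 0 < σ := by rw [hσ]; positivity
  have hσ1 : σ ≤ 8 * ξ ^ 3 := by
    rw [hσ]
    refine (div_le_self (by positivity) (le_add_of_nonneg_right (by positivity))).trans ?_
    calc ρ ^ 2 * s ≤ (2 * ξ) ^ 2 * (2 * ξ) := by gcongr
      _ = _ := by ring
  have hσ2 : ρ - 1 / (x * ξ - 1) = σ := by
    rw [show x * ξ - 1 = s + 1 / ρ by linarith, hσ]; field_simp; ring
  obtain ⟨β, θ, hβ, hθ, hθ'⟩ : ∃ (β : ℤ) (θ : ℝ), β = 1 / σ + θ ∧ 1 ≤ θ ∧ θ ≤ 2 :=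
    ⟨⌈1 / σ + 1⌉, ⌈1 / σ + 1⌉ - 1 / σ, by ring, by linarith [Int.le_ceil (1 / σ + 1)],
      by linarith [Int.ceil_lt_add_one (1 / σ + 1)]⟩
  obtain ⟨z, hz, hz'⟩ : ∃ z : ℤ, z * (θ * ξ) ≤ 1 ∧ 1 - θ * ξ ≤ z * (θ * ξ) := by
    have a := Int.floor_le (1 / (θ * ξ))
    have b := Int.sub_one_lt_floor (1 / (θ * ξ))
    have c : 0 < θ * ξ := by positivity
    have d : 1 / (θ * ξ) * (θ * ξ) = 1 := by field_simp
    exact ⟨⌊1 / (θ * ξ)⌋, by nlinarith, by nlinarith⟩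
  have h2 : θ * ξ ≤ 2 * ξ := by gcongr
  have hz0 : (0 : ℝ) < z := (mul_pos_iff_of_pos_right (by positivity)).1
    (by linarith : (0 : ℝ) < z * (θ * ξ))
  obtain ⟨e, he, he0, he1⟩ : ∃ e, 1 / (z * ξ) = θ + e ∧ 0 ≤ e ∧ e ≤ 5 * ξ := by
    refine ⟨1 / (z * ξ) - θ, by ring, ?_, ?_⟩
    · rw [sub_nonneg, le_div_iff₀ (by positivity)]; linarith
    · rw [sub_le_iff_le_add, div_le_iff₀ (by positivity)]
      have : 2 / 5 ≤ z * ξ := by nlinarith [mul_pos hz0 h0]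
      nlinarith
  have h3 : ξ ^ 3 ≤ 1 / 1000 := (pow_le_pow_left₀ h0.le h1 3).trans (by norm_num)
  have h4 : σ * e ≤ 1 / 2 := by nlinarith
  have h5 : β - 1 / (z * ξ) = (1 - σ * e) / σ := by rw [hβ, he]; field_simp; ring
  have h6 : y * ξ - 1 - 1 / (x * ξ - 1) - 1 / (β - 1 / (z * ξ)) = -(σ ^ 2 * e / (1 - σ * e)) := by
    have : 1 - σ * e ≠ 0 := by linarith
    rw [← hρ, hσ2, h5]; field_simp; ring
  have h7 : 0 < 1 - σ * e := by linarith
  have hx1 : 1 < x * ξ := by have := one_div_pos.2 hρ0; linarith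
  obtain ⟨q, hq, h⟩ := exists_root (η := 640 * ξ ^ 7) (y := y) (β := β) h0 hx1 (by linarith) hz0
    (sub_pos.1 (by rw [h5]; positivity)) (by rw [h6, neg_nonpos]; positivity) (by
      rw [h6, neg_le_neg_iff, div_le_iff₀ h7]
      calc σ ^ 2 * e ≤ (8 * ξ ^ 3) ^ 2 * (5 * ξ) := by gcongr
        _ = 640 * ξ ^ 7 * (1 / 2) := by ring
        _ ≤ _ := by gcongr; linarith)
  have h8 : ξ ^ 7 ≤ 1 / 10 ^ 7 := (pow_le_pow_left₀ h0.le h1 7).trans (by norm_num)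
  have hβ1 : (1 : ℝ) < β := by have := one_div_pos.2 hσ0; linarith
  have hβ2 : 1 < β := by exact_mod_cast hβ1
  refine ⟨q, root_mem_closure (x := x) (a := -1) (y := y) (b := -β) (z := z) ?_ (by norm_num) ?_
    (by omega) (by exact_mod_cast hz0.ne') (by omega) (by linarith [hq.1])
    (by nlinarith [hq.2]) (by push_cast; linear_combination h), hq.1, hq.2.trans_eq (by ring)⟩
  · rintro rfl; norm_num at hx1
  · rintro rfl; simp only [Int.cast_zero, zero_mul] at hρ; linarith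

end Pool.Agent.Lib.MP_9e6b46_al
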