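import Mathlib

/-! Rational roots of pencils of quadratics, and continuity of roots. -/

set_option autoImplicit false

namespace Pool.Agent.Lib.MP_9e6b46_al

open Filter Topology

/-- A root of `c2 q^2 + c1 q + c0`; the sign `ε = ±1` selects it. -/
noncomputable def rt (ε c2 c1 c0 : ℝ) : ℝ := (-c1 + ε * √(c1 ^ 2 - 4 * c2 * c0)) / (2 * c2)

lemma rt_root {ε c2 c1 c0 : ℝ} (hε : ε ^ 2 = 1) (h2 : c2 ≠ 0) (hd : 0 ≤ c1 ^ 2 - 4 * c2 * c0) :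
    c2 * rt ε c2 c1 c0 ^ 2 + c1 * rt ε c2 c1 c0 + c0 = 0 := by
  have h := Real.sq_sqrt hd
  unfold rt
  generalize √(c1 ^ 2 - 4 * c2 * c0) = w at h
  field_simp
  linear_combination (ε ^ 2) * h + (c1 ^ 2 - 4 * c2 * c0) * hε

lemma eq_rt {q c2 c1 c0 : ℝ} (h2 : c2 ≠ 0) (h : c2 * q ^ 2 + c1 * q + c0 = 0) :
    ∃ ε : ℝ, ε ^ 2 = 1 ∧ q = rt ε c2 c1 c0 := by
  have h1 : c1 ^ 2 - 4 * c2 * c0 = (2 * c2 * q + c1) ^ 2 := by linear_combination (-4 * c2) * h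
  unfold rt
  rw [h1, Real.sqrt_sq_eq_abs]
  rcases le_total 0 (2 * c2 * q + c1) with h3 | h3
  · exact ⟨1, by norm_num, by rw [abs_of_nonneg h3]; field_simp; ring⟩
  · exact ⟨-1, by norm_num, by rw [abs_of_nonpos h3]; field_simp; ring⟩

lemma rt_scale {ε c2 c1 c0 t : ℝ} (ht : 0 < t) :
    rt ε (t * c2) (t * c1) (t * c0) = rt ε c2 c1 c0 := by
  unfold rt
  rw [show (t * c1) ^ 2 - 4 * (t * c2) * (t * c0) = t ^ 2 * (c1 ^ 2 - 4 * c2 * c0) by ring,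
    Real.sqrt_mul (sq_nonneg t), Real.sqrt_sq ht.le]
  by_cases h : c2 = 0
  · simp [h]
  · field_simp

lemma tendsto_rt {ε c2 c1 c0 d2 d1 d0 : ℝ} (h2 : c2 ≠ 0) {u : ℕ → ℝ} (hu : Tendsto u atTop (𝓝 0)) :
    Tendsto (fun n => rt ε (c2 + u n * d2) (c1 + u n * d1) (c0 + u n * d0)) atTop
      (𝓝 (rt ε c2 c1 c0)) := by
  have h : ContinuousAt (fun u : ℝ => rt ε (c2 + u * d2) (c1 + u * d1) (c0 + u * d0)) 0 := by
    unfold rt
    apply ContinuousAt.div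
    · fun_prop
    · fun_prop
    · simpa using h2
  simpa [Function.comp_def] using h.tendsto.comp hu

lemma mem_derivedSet_of_tendsto {S : Set ℝ} {x : ℝ} {f : ℕ → ℝ} (hf : Tendsto f atTop (𝓝 x))
    (h : ∀ᶠ n in atTop, f n ≠ x ∧ f n ∈ S) : x ∈ derivedSet S := by
  rw [mem_derivedSet, accPt_iff_frequently]
  exact hf.frequently h.frequently

lemma pell_seq {δ : ℤ} (h0 : 0 < δ) (hδ : ¬ IsSquare δ) (n : ℕ) :
    ∃ u v : ℤ, u ^ 2 - δ * v ^ 2 = 1 ∧ (n : ℤ) < |v| := by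
  induction n with
  | zero =>
    obtain ⟨u, v, h1, h2⟩ := Pell.exists_of_not_isSquare h0 hδ
    exact ⟨u, v, h1, by simpa using h2⟩
  | succ n ih =>
    obtain ⟨u, v, h1, h2⟩ := ih
    refine ⟨u ^ 2 + δ * v ^ 2, 2 * u * v, by linear_combination (u ^ 2 - δ * v ^ 2 + 1) * h1, ?_⟩
    have hu : u ≠ 0 := by
      rintro rfl
      nlinarith [sq_nonneg v]
    have hu1 : 1 ≤ |u| := Int.one_le_abs hu
    rw [abs_mul, abs_mul, abs_two]
    push_cast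
    nlinarith [Int.natCast_nonneg n]

lemma conic_seq {δ : ℤ} (h0 : 0 < δ) (hδ : ¬ IsSquare δ) (η β : ℤ) (hβ : β ≠ 0 ∨ η ≠ 0) (n : ℕ) :
    ∃ T Y : ℤ, Y ^ 2 = δ * T ^ 2 + η * T + β ^ 2 ∧ (n : ℤ) < |T| := by
  obtain ⟨u, v, h1, h2⟩ := pell_seq h0 hδ n
  have hu : u ≠ 0 := by
    rintro rfl
    nlinarith [sq_nonneg v]
  have key : ∀ u : ℤ, u ^ 2 - δ * v ^ 2 = 1 → η * v + 2 * β * u ≠ 0 →
      ∃ T Y : ℤ, Y ^ 2 = δ * T ^ 2 + η * T + β ^ 2 ∧ (n : ℤ) < |T| := by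
    intro u h1 h3
    refine ⟨v * (η * v + 2 * β * u), η * u * v + β * (1 + 2 * δ * v ^ 2), ?_, ?_⟩
    · linear_combination (η ^ 2 * v ^ 2 - 4 * β ^ 2 * δ * v ^ 2) * h1
    · rw [abs_mul]
      have := Int.one_le_abs h3
      nlinarith [abs_nonneg v]
  by_cases h3 : η * v + 2 * β * u = 0
  · apply key (-u) (by linear_combination h1)
    intro h4
    have h5 : β * u = 0 := by linarith
    have h6 : η * v = 0 := by linarith
    have hv : v ≠ 0 := by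
      rintro rfl
      simp at h2
      omega
    rcases hβ with h7 | h7
    · exact mul_ne_zero h7 hu h5
    · exact mul_ne_zero h7 hv h6
  · exact key u h1 h3

/-- If the discriminant of `α` is a positive non-square, then each root of `α` is a limit of
rational roots of the pencil `T α + β` with `β` nonzero of degree at most one, at nonzero integers `T`. -/
lemma root_mem_derivedSet {a2 a1 a0 b1 b0 : ℤ} (h2 : a2 ≠ 0) (hb : b1 ≠ 0 ∨ b0 ≠ 0)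
    (h0 : 0 < a1 ^ 2 - 4 * a2 * a0) (hδ : ¬ IsSquare (a1 ^ 2 - 4 * a2 * a0)) {ε : ℝ}
    (hε : ε ^ 2 = 1) :
    rt ε a2 a1 a0 ∈ derivedSet {q : ℝ | (∃ r : ℚ, (r : ℝ) = q) ∧ ∃ T : ℤ, T ≠ 0 ∧
      T * (a2 * q ^ 2 + a1 * q + a0) + (b1 * q + b0) = 0} := by
  choose T Y hTY hT using conic_seq h0 hδ (2 * a1 * b1 - 4 * a2 * b0) b1 (by
    by_cases h : b1 = 0
    · right
      rw [h]
      simpa [h2] using hb.resolve_left (not_not.2 h)
    · exact Or.inl h)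
  have hT0 : ∀ n, T n ≠ 0 := fun n h => by
    have := hT n
    rw [h] at this
    simp at this
    omega
  have hT0' : ∀ n, (T n : ℝ) ≠ 0 := fun n => by exact_mod_cast hT0 n
  have h2' : (a2 : ℝ) ≠ 0 := by exact_mod_cast h2
  have hu : Tendsto (fun n => (T n : ℝ)⁻¹) atTop (𝓝 0) := by
    rw [tendsto_zero_iff_abs_tendsto_zero]
    have h3 : Tendsto (fun n => |(T n : ℝ)|) atTop atTop :=
      tendsto_atTop_mono (fun n => by exact_mod_cast (hT n).le) tendsto_natCast_atTop_atTop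
    simpa [Function.comp_def, abs_inv, Pi.inv_def] using h3.inv_tendsto_atTop
  have hdisc : ∀ n, ((a1 : ℝ) + (T n : ℝ)⁻¹ * b1) ^ 2 -
      4 * (a2 + (T n : ℝ)⁻¹ * 0) * (a0 + (T n : ℝ)⁻¹ * b0) = ((Y n : ℝ) / T n) ^ 2 := by
    intro n
    have h3 : ((Y n : ℝ)) ^ 2 = ((a1 : ℝ) ^ 2 - 4 * a2 * a0) * (T n : ℝ) ^ 2 +
        (2 * a1 * b1 - 4 * a2 * b0) * T n + (b1 : ℝ) ^ 2 := by exact_mod_cast hTY n
    have := hT0' n
    field_simp
    linear_combination -h3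
  have hε' : ε = 1 ∨ ε = -1 := sq_eq_one_iff.1 hε
  have hrat : ∀ n, ∃ r : ℚ, (r : ℝ) =
      rt ε (a2 + (T n : ℝ)⁻¹ * 0) (a1 + (T n : ℝ)⁻¹ * b1) (a0 + (T n : ℝ)⁻¹ * b0) := by
    intro n
    unfold rt
    rw [hdisc, Real.sqrt_sq_eq_abs]
    rcases hε' with rfl | rfl
    · exact ⟨(-(a1 + (T n : ℚ)⁻¹ * b1) + 1 * |(Y n : ℚ) / T n|) / (2 * (a2 + (T n : ℚ)⁻¹ * 0)),
        by push_cast; rfl⟩
    · exact ⟨(-(a1 + (T n : ℚ)⁻¹ * b1) + -1 * |(Y n : ℚ) / T n|) / (2 * (a2 + (T n : ℚ)⁻¹ * 0)),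
        by push_cast; rfl⟩
  refine mem_derivedSet_of_tendsto (tendsto_rt (d2 := 0) (d1 := b1) (d0 := b0) h2' hu)
    (Eventually.of_forall fun n => ⟨?_, hrat n, T n, hT0 n, ?_⟩)
  · intro h
    obtain ⟨r, hr⟩ := hrat n
    rw [h] at hr
    have h3 := rt_root (ε := ε) hε h2' (c1 := a1) (c0 := a0) (by exact_mod_cast h0.le)
    rw [← hr] at h3
    have h4 : (a2 : ℚ) * r ^ 2 + a1 * r + a0 = 0 := by exact_mod_cast h3
    apply hδ
    rw [← Rat.isSquare_intCast_iff]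
    exact ⟨2 * a2 * r + a1, by push_cast; linear_combination (-4 * a2 : ℚ) * h4⟩
  · have h3 := rt_root (ε := ε) hε (c2 := a2 + (T n : ℝ)⁻¹ * 0) (c1 := a1 + (T n : ℝ)⁻¹ * b1)
      (c0 := a0 + (T n : ℝ)⁻¹ * b0) (by simpa using h2') (by rw [hdisc]; positivity)
    generalize rt ε (a2 + (T n : ℝ)⁻¹ * 0) (a1 + (T n : ℝ)⁻¹ * b1) (a0 + (T n : ℝ)⁻¹ * b0) = q
      at h3 ⊢
    have h4 := mul_inv_cancel₀ (hT0' n)
    linear_combination (T n : ℝ) * h3 - (b1 * q + b0) * h4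

end Pool.Agent.Lib.MP_9e6b46_al
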