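import Pool.Agent.Lib.MP_9e6b46_al.Defs
import Pool.Agent.Lib.MP_9e6b46_al.Pell

/-! Half-relations of length six and iterated accumulation points. -/

set_option autoImplicit false

namespace Pool.Agent.Lib.MP_9e6b46_al

open Matrix Filter Topology


def up : Multiplicative ℝ →* SpecialLinearGroup (Fin 2) ℝ where
  toFun t := ⟨!![1, t.toAdd; 0, 1], by simp [det_fin_two]⟩
  map_one' := by ext i j; fin_cases i <;> fin_cases j <;> simp
  map_mul' s t := by
    ext i j; fin_cases i <;> fin_cases j <;> simp [Matrix.mul_apply, Fin.sum_univ_two, add_comm]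

def low : Multiplicative ℝ →* SpecialLinearGroup (Fin 2) ℝ where
  toFun t := ⟨!![1, 0; t.toAdd, 1], by simp [det_fin_two]⟩
  map_one' := by ext i j; fin_cases i <;> fin_cases j <;> simp
  map_mul' s t := by
    ext i j; fin_cases i <;> fin_cases j <;> simp [Matrix.mul_apply, Fin.sum_univ_two]

lemma matA_zpow (n : ℤ) :
    ((matA ^ n : SpecialLinearGroup (Fin 2) ℝ) : Matrix (Fin 2) (Fin 2) ℝ) = !![1, (n : ℝ); 0, 1] := by
  have h : matA = up (Multiplicative.ofAdd 1) := rfl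
  rw [h, ← map_zpow]
  simp [up]

lemma matB_zpow (q : ℝ) (n : ℤ) :
    ((matB q ^ n : SpecialLinearGroup (Fin 2) ℝ) : Matrix (Fin 2) (Fin 2) ℝ) =
      !![1, 0; (n : ℝ) * q, 1] := by
  have h : matB q = low (Multiplicative.ofAdd q) := rfl
  rw [h, ← map_zpow]
  simp [low]

lemma word_eq_iff (q : ℝ) (T x a y b z : ℤ) :
    matA ^ T * matB q ^ x * matA ^ a * matB q ^ y * matA ^ b * matB q ^ z =
      matB q ^ z * matA ^ b * matB q ^ y * matA ^ a * matB q ^ x * matA ^ T ↔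
    q * (T * (a * b * x * y * z * q ^ 2 + (a * x * (y + z) + b * z * (x + y)) * q + (x + y + z)) +
      (a * b * y * (z - x) * q + (a * (y + z - x) + b * (z - x - y)))) = 0 := by
  have hext : ∀ M N : SpecialLinearGroup (Fin 2) ℝ,
      M = N ↔ (M : Matrix (Fin 2) (Fin 2) ℝ) = (N : Matrix (Fin 2) (Fin 2) ℝ) :=
    fun M N => Subtype.ext_iff
  have hmul : ∀ M N : SpecialLinearGroup (Fin 2) ℝ, ((M * N : SpecialLinearGroup (Fin 2) ℝ) :
      Matrix (Fin 2) (Fin 2) ℝ) = (M : Matrix (Fin 2) (Fin 2) ℝ) * N := fun M N => rfl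
  rw [hext]
  repeat rw [hmul]
  repeat rw [matA_zpow]
  repeat rw [matB_zpow]
  simp only [Matrix.mul_fin_two]
  constructor
  · intro h
    have h1 := congrFun (congrFun h 0) 0
    simp only [of_apply, cons_val', cons_val_zero, cons_val_fin_one] at h1
    linear_combination h1
  · intro h
    ext i j
    fin_cases i <;> fin_cases j <;> simp
    · linear_combination h
    · ring
    · ring
    · linear_combination -h

lemma nonFree_of (q : ℝ) {T x a y b z : ℤ} (hT : T ≠ 0) (hx : x ≠ 0) (ha : a ≠ 0)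
    (hy : y ≠ 0) (hb : b ≠ 0) (hz : z ≠ 0)
    (h : T * (a * b * x * y * z * q ^ 2 + (a * x * (y + z) + b * z * (x + y)) * q + (x + y + z)) +
      (a * b * y * (z - x) * q + (a * (y + z - x) + b * (z - x - y))) = 0) : NonFree q := by
  let u : FreeGroup (Fin 2) := FreeGroup.of 0
  let v : FreeGroup (Fin 2) := FreeGroup.of 1
  have key : ∀ q' : ℝ, FreeGroup.lift ![matA, matB q']
      ((u ^ T * v ^ x * u ^ a * v ^ y * u ^ b * v ^ z) *
        (v ^ z * u ^ b * v ^ y * u ^ a * v ^ x * u ^ T)⁻¹) = 1 ↔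
      q' * (T * (a * b * x * y * z * q' ^ 2 + (a * x * (y + z) + b * z * (x + y)) * q' +
        (x + y + z)) + (a * b * y * (z - x) * q' + (a * (y + z - x) + b * (z - x - y)))) = 0 := by
    intro q'
    rw [map_mul, map_inv, mul_inv_eq_one, ← word_eq_iff]
    simp [u, v]
  refine ⟨_, fun h1 => ?_, (key q).2 (by rw [h, mul_zero])⟩
  have h2 := (key 1).1 (by rw [h1, map_one])
  have h3 := (key 2).1 (by rw [h1, map_one])
  have h4 := (key 3).1 (by rw [h1, map_one])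
  have h5 : ((T * a * b * x * y * z : ℤ) : ℝ) = 0 := by
    push_cast
    linear_combination (1 / 2) * h2 - (1 / 2) * h3 + (1 / 6) * h4
  have h6 : T * a * b * x * y * z = 0 := by exact_mod_cast h5
  simp [hT, hx, ha, hy, hb, hz] at h6

def S6 : Set ℝ := {q | (∃ r : ℚ, (r : ℝ) = q) ∧ -4 < q ∧ q < 4 ∧ ∃ T x a y b z : ℤ,
  T ≠ 0 ∧ x ≠ 0 ∧ a ≠ 0 ∧ y ≠ 0 ∧ b ≠ 0 ∧ z ≠ 0 ∧
    T * (a * b * x * y * z * q ^ 2 + (a * x * (y + z) + b * z * (x + y)) * q + (x + y + z)) +
      (a * b * y * (z - x) * q + (a * (y + z - x) + b * (z - x - y))) = 0}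

lemma S6_sub : S6 ⊆ RQ := by
  rintro q ⟨h1, h2, h3, T, x, a, y, b, z, hT, hx, ha, hy, hb, hz, h⟩
  exact ⟨h1, h2, h3, nonFree_of q hT hx ha hy hb hz h⟩

lemma first {x a y b z : ℤ} (hx : x ≠ 0) (ha : a ≠ 0) (hy : y ≠ 0) (hb : b ≠ 0)
    (hz : z ≠ 0) (hp : x ≠ z ∨ a ≠ b)
    (hd : ¬ IsSquare ((a * x * (y + z) + b * z * (x + y)) ^ 2 - 4 * (a * b * x * y * z) * (x + y + z)))
    {q : ℝ} (h1 : -4 < q) (h2 : q < 4)
    (h : a * b * x * y * z * q ^ 2 + (a * x * (y + z) + b * z * (x + y)) * q + (x + y + z) = 0) :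
    q ∈ derivedSet S6 := by
  have h3 : a * b * x * y * z ≠ 0 := by simp [hx, ha, hy, hb, hz]
  have h4 : (0 : ℤ) < (a * x * (y + z) + b * z * (x + y)) ^ 2 -
      4 * (a * b * x * y * z) * (x + y + z) := by
    rcases lt_trichotomy 0 ((a * x * (y + z) + b * z * (x + y)) ^ 2 -
      4 * (a * b * x * y * z) * (x + y + z)) with h5 | h5 | h5
    · exact h5
    · exact absurd ⟨0, by rw [← h5]; simp⟩ hd
    · exfalso
      have h6 : (((a * x * (y + z) + b * z * (x + y)) ^ 2 -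
        4 * (a * b * x * y * z) * (x + y + z) : ℤ) : ℝ) < 0 := by exact_mod_cast h5
      push_cast at h6
      have h7 : ((a : ℝ) * x * (y + z) + b * z * (x + y)) ^ 2 -
          4 * (a * b * x * y * z) * (x + y + z) =
          (2 * (a * b * x * y * z) * q + (a * x * (y + z) + b * z * (x + y))) ^ 2 := by
        linear_combination (-4 * (a * b * x * y * z : ℝ)) * h
      rw [h7] at h6
      exact absurd h6 (not_lt.2 (sq_nonneg _))
  obtain ⟨ε, hε, hq⟩ := eq_rt (q := q) (c2 := ((a * b * x * y * z : ℤ) : ℝ))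
    (c1 := ((a * x * (y + z) + b * z * (x + y) : ℤ) : ℝ)) (c0 := ((x + y + z : ℤ) : ℝ))
    (by exact_mod_cast h3) (by push_cast; exact h)
  have h5 := root_mem_derivedSet (b1 := a * b * y * (z - x))
    (b0 := a * (y + z - x) + b * (z - x - y)) h3 (by
      by_cases h6 : x = z
      · right
        have h7 := hp.resolve_left (not_not.2 h6)
        rw [h6, show a * (y + z - z) + b * (z - z - y) = y * (a - b) by ring]
        exact mul_ne_zero hy (sub_ne_zero.2 h7)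
      · left
        exact mul_ne_zero (by simp [ha, hb, hy]) (sub_ne_zero.2 (Ne.symm h6))) h4 hd hε
  rw [← hq, mem_derivedSet] at h5
  refine (h5.nhds_inter (Ioo_mem_nhds h1 h2)).mono (principal_mono.2 ?_)
  rintro r ⟨hr, hr2, T, hT, hr3⟩
  refine ⟨hr2, hr.1, hr.2, T, x, a, y, b, z, hT, hx, ha, hy, hb, hz, ?_⟩
  push_cast at hr3
  exact hr3

lemma tendsto_inv_lin (c : ℝ) : Tendsto (fun n : ℕ => (3 * (n : ℝ) + c)⁻¹) atTop (𝓝 0) :=
  (tendsto_atTop_add_const_right _ c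
    (tendsto_natCast_atTop_atTop.const_mul_atTop (by norm_num))).inv_tendsto_atTop

lemma second (i k : ℕ) {x b : ℝ} (hx : x = 3 * i + 4) (hb : b = 3 * k + 2)
    (h1 : -4 < rt (-1) (-(b * x)) (x + b * (x - 1)) 1)
    (h2 : rt (-1) (-(b * x)) (x + b * (x - 1)) 1 < 4) :
    rt (-1) (-(b * x)) (x + b * (x - 1)) 1 ∈ derivedSet (derivedSet S6) := by
  have hx0 : 0 < x := by rw [hx]; positivity
  have hx1 : 0 < x - 1 := by rw [hx]; linarith [(Nat.cast_nonneg i : (0 : ℝ) ≤ i)]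
  have hb0 : 0 < b := by rw [hb]; positivity
  have hbx : -(b * x) ≠ 0 := by simp [hx0.ne', hb0.ne']
  have ht := tendsto_rt (ε := -1) (c1 := x + b * (x - 1)) (c0 := 1) (d2 := 0) (d1 := -x)
    (d0 := x - 1) hbx (tendsto_inv_lin 1)
  have hroot := rt_root (ε := -1) (c1 := x + b * (x - 1)) (c0 := 1) (by norm_num) hbx
    (by nlinarith [sq_nonneg (x + b * (x - 1)), mul_pos hb0 hx0])
  refine mem_derivedSet_of_tendsto ht ?_
  filter_upwards [ht.eventually (Ioo_mem_nhds h1 h2)] with j hj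
  have hz0 : (0 : ℝ) < 3 * j + 1 := by positivity
  have hroot' := rt_root (ε := -1) (c2 := -(b * x) + (3 * (j : ℝ) + 1)⁻¹ * 0)
    (c1 := x + b * (x - 1) + (3 * (j : ℝ) + 1)⁻¹ * -x)
    (c0 := 1 + (3 * (j : ℝ) + 1)⁻¹ * (x - 1)) (by norm_num) (by simpa using hbx) (by
      have h3 : 0 < b * x * (1 + (3 * (j : ℝ) + 1)⁻¹ * (x - 1)) := by positivity
      nlinarith [sq_nonneg (x + b * (x - 1) + (3 * (j : ℝ) + 1)⁻¹ * -x)])
  generalize rt (-1) (-(b * x) + (3 * (j : ℝ) + 1)⁻¹ * 0)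
    (x + b * (x - 1) + (3 * (j : ℝ) + 1)⁻¹ * -x) (1 + (3 * (j : ℝ) + 1)⁻¹ * (x - 1)) = q at *
  have hinv := mul_inv_cancel₀ hz0.ne'
  constructor
  · intro h3
    rw [← h3] at hroot
    have h4 : -x * q + (x - 1) = 0 := by
      linear_combination (3 * (j : ℝ) + 1) * (hroot' - hroot) - (-x * q + (x - 1)) * hinv
    have h5 : x = 0 := by linear_combination hroot - (b * q - 1) * h4
    exact hx0.ne' h5
  · refine first (x := 3 * i + 4) (a := 1) (y := -1) (b := 3 * k + 2) (z := 3 * j + 1)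
      (by omega) (by omega) (by omega) (by omega) (by omega) (Or.inr (by omega)) ?_ hj.1 hj.2 ?_
    · rintro ⟨r, hr⟩
      have h3 := congrArg (fun t : ℤ => (t : ZMod 3)) hr
      simp only [Int.cast_sub, Int.cast_pow, Int.cast_add, Int.cast_mul, Int.cast_ofNat,
        Int.cast_one, Int.cast_neg, Int.cast_natCast] at h3
      have h4 : (3 : ZMod 3) = 0 := rfl
      simp only [h4, zero_mul, zero_add] at h3
      generalize (r : ZMod 3) = r' at h3
      revert r'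
      decide
    · push_cast
      rw [← hx, ← hb]
      linear_combination (3 * (j : ℝ) + 1) * hroot' - (-x * q + (x - 1)) * hinv

lemma third (i : ℕ) {x : ℝ} (hx : x = 3 * i + 4) :
    1 - x⁻¹ ∈ derivedSet (derivedSet (derivedSet S6)) := by
  have hx0 : 0 < x := by rw [hx]; positivity
  have hx1 : 0 < x - 1 := by rw [hx]; linarith [(Nat.cast_nonneg i : (0 : ℝ) ≤ i)]
  have ht := tendsto_rt (ε := -1) (c2 := -x) (c1 := x - 1) (c0 := 0) (d2 := 0) (d1 := x)
    (d0 := 1) (by simpa using hx0.ne') (tendsto_inv_lin 2)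
  have h1 : rt (-1) (-x) (x - 1) 0 = 1 - x⁻¹ := by
    unfold rt
    rw [mul_zero, sub_zero, Real.sqrt_sq hx1.le]
    field_simp
    ring
  rw [h1] at ht
  have h2 : 0 < x⁻¹ := inv_pos.2 hx0
  have h3 : x⁻¹ < 1 := inv_lt_one_of_one_lt₀ (by linarith)
  refine mem_derivedSet_of_tendsto ht ?_
  filter_upwards [ht.eventually (Ioo_mem_nhds (show -4 < 1 - x⁻¹ by linarith)
    (show 1 - x⁻¹ < 4 by linarith))] with k hk
  have hb0 : (0 : ℝ) < 3 * k + 2 := by positivity
  have h4 : rt (-1) (-x + (3 * (k : ℝ) + 2)⁻¹ * 0) (x - 1 + (3 * (k : ℝ) + 2)⁻¹ * x)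
      (0 + (3 * (k : ℝ) + 2)⁻¹ * 1) =
      rt (-1) (-((3 * k + 2) * x)) (x + (3 * k + 2) * (x - 1)) 1 := by
    rw [← rt_scale hb0]
    congr 1 <;> field_simp <;> ring
  rw [h4] at hk ⊢
  refine ⟨fun h5 => ?_, second i k hx rfl hk.1 hk.2⟩
  have h6 := rt_root (ε := -1) (c2 := -((3 * k + 2) * x)) (c1 := x + (3 * k + 2) * (x - 1))
    (c0 := 1) (by norm_num) (by simp [hx0.ne', hb0.ne'])
    (by nlinarith [sq_nonneg (x + (3 * k + 2) * (x - 1)), mul_pos hb0 hx0])
  rw [h5] at h6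
  have h7 := mul_inv_cancel₀ hx0.ne'
  apply hx0.ne'
  linear_combination h6 + (1 - (3 * k + 2) * (1 - x⁻¹)) * h7

lemma fourth : (1 : ℝ) ∈ derivedSet^[4] S6 := by
  have ht : Tendsto (fun i : ℕ => 1 - (3 * (i : ℝ) + 4)⁻¹) atTop (𝓝 1) := by
    simpa using (tendsto_inv_lin 4).const_sub 1
  refine mem_derivedSet_of_tendsto ht (Eventually.of_forall fun i => ⟨?_, third i rfl⟩)
  have : (0 : ℝ) < (3 * (i : ℝ) + 4)⁻¹ := by positivity
  linarith

lemma div_mem {n : ℤ} (hn : n ≠ 0) {q : ℝ} (hq : q ∈ S6) : q / n ∈ S6 := by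
  obtain ⟨⟨r, hr⟩, h1, h2, T, x, a, y, b, z, hT, hx, ha, hy, hb, hz, h⟩ := hq
  have hn' : (n : ℝ) ≠ 0 := by exact_mod_cast hn
  have h3 : |q / n| < 4 := by
    rw [abs_div, div_lt_iff₀ (abs_pos.2 hn')]
    have h4 : (1 : ℝ) ≤ |(n : ℝ)| := by exact_mod_cast Int.one_le_abs hn
    have h5 : |q| < 4 := abs_lt.2 ⟨h1, h2⟩
    linarith
  refine ⟨⟨r / n, by push_cast; rw [hr]⟩, (abs_lt.1 h3).1, (abs_lt.1 h3).2, T, n * x, a, n * y, b,
    n * z, hT, mul_ne_zero hn hx, ha, mul_ne_zero hn hy, hb, mul_ne_zero hn hz, ?_⟩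
  obtain ⟨p, rfl⟩ : ∃ p, q = p * n := ⟨q / n, by field_simp⟩
  rw [mul_div_cancel_right₀ _ hn']
  push_cast
  linear_combination (n : ℝ) * h

lemma div_mem_iter {n : ℤ} (hn : n ≠ 0) (k : ℕ) :
    ∀ q ∈ derivedSet^[k] S6, q / n ∈ derivedSet^[k] S6 := by
  have hn' : (n : ℝ) ≠ 0 := by exact_mod_cast hn
  induction k with
  | zero => exact fun q hq => div_mem hn hq
  | succ k ih =>
    intro q hq
    rw [Function.iterate_succ_apply'] at hq ⊢
    have h1 := Continuous.image_derivedSet (A := derivedSet^[k] S6) (f := fun t : ℝ => t / n)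
      (by fun_prop) (fun s t h => (div_left_inj' hn').1 h) ⟨q, hq, rfl⟩
    exact derivedSet_mono _ _ (by rintro _ ⟨t, ht, rfl⟩; exact ih t ht) h1

lemma iter_mono (k : ℕ) : derivedSet^[k] S6 ⊆ derivedSet^[k] RQ := by
  induction k with
  | zero => exact S6_sub
  | succ k ih =>
    rw [Function.iterate_succ_apply', Function.iterate_succ_apply']
    exact derivedSet_mono _ _ ih

end Pool.Agent.Lib.MP_9e6b46_al
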